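import Mathlib
import Pool.Agent.Helper86.MS.PS

/-!
Piecewise syndetic sets and idempotent ultrafilters on the natural numbers.
-/

namespace Pool.Agent.Helper30.TC

open Filter Pool.Agent.Helper86.MS

attribute [local instance] Ultrafilter.add Ultrafilter.addSemigroup

theorem PS_of_shift {A : Set ℕ} (k : ℕ) (h : PS {n | k + n ∈ A}) : PS A := by
  obtain ⟨t, ht⟩ := h
  refine ⟨t, fun L => ?_⟩
  obtain ⟨n, hn⟩ := ht L
  refine ⟨n + k, fun m h1 h2 => ?_⟩
  obtain ⟨s, hs, hmem⟩ := hn (m - k) (by omega) (by omega)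
  refine ⟨s, hs, ?_⟩
  have h3 : k + (m - k + s) = m + s := by omega
  have h4 : k + (m - k + s) ∈ A := hmem
  rwa [h3] at h4

theorem PS_divide {A : Set ℕ} (d : ℕ) (hd : 0 < d) (h : PS A) (hA : ∀ a ∈ A, d ∣ a) :
    PS {s | d * s ∈ A} := by
  obtain ⟨t, ht⟩ := h
  refine ⟨t, fun L => ?_⟩
  obtain ⟨n, hn⟩ := ht (d * L + d)
  refine ⟨n / d + 1, fun m h1 h2 => ?_⟩
  have h3 : d * (n / d) + n % d = n := Nat.div_add_mod n d
  have h4 : n % d < d := Nat.mod_lt _ hd
  have h5 : d * (n / d + 1) ≤ d * m := Nat.mul_le_mul_left _ h1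
  have h6 : d * m < d * (n / d + 1 + L) := by
    apply Nat.mul_lt_mul_of_pos_left h2 hd
  have h7 : d * (n / d + 1) = d * (n / d) + d := by ring
  have h8 : d * (n / d + 1 + L) = d * (n / d) + d + d * L := by ring
  obtain ⟨s, hs, hmem⟩ := hn (d * m) (by omega) (by omega)
  obtain ⟨k, hk⟩ := hA _ hmem
  have h9 : m ≤ k := by
    by_contra hlt
    have : d * k ≤ d * m := Nat.mul_le_mul_left _ (by omega)
    have h10 : s = 0 := by omega
    have h11 : d * m = d * k := by omega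
    have := Nat.eq_of_mul_eq_mul_left hd h11
    omega
  have h12 : d * (k - m) = s := by
    rw [Nat.mul_sub]; omega
  refine ⟨k - m, ?_, ?_⟩
  · calc k - m ≤ d * (k - m) := Nat.le_mul_of_pos_left _ hd
      _ = s := h12
      _ ≤ t := hs
  · show d * (m + (k - m)) ∈ A
    have h13 : d * (m + (k - m)) = d * m + s := by
      rw [show m + (k - m) = k by omega, ← hk]
    rw [h13]; exact hmem

theorem PS_multiples (m : ℕ) (hm : 0 < m) : PS {n | m ∣ n} := by
  refine (PS.univ.dilate m hm).mono ?_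
  rintro z ⟨a, _, rfl⟩
  exact Dvd.intro _ rfl

theorem PS_large {A : Set ℕ} (h : PS A) (N : ℕ) : PS {z | z ∈ A ∧ N ≤ z} := by
  have h1 : PS ({z | z ∈ A ∧ N ≤ z} ∪ {z | z < N}) := by
    refine h.mono ?_
    intro z hz
    by_cases hN : N ≤ z
    · exact Or.inl ⟨hz, hN⟩
    · exact Or.inr (by simpa using hN)
  rcases h1.union with h2 | h2
  · exact h2
  · exfalso
    obtain ⟨a, ha, haN⟩ := h2.unbounded N
    have : a < N := ha
    omega

/-- the filter of sets containing almost all multiples of some `m`, up to a set which is not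
piecewise syndetic. -/
def psFilter : Filter ℕ where
  sets := {A | ∃ m > 0, ¬ PS ({n | m ∣ n} \ A)}
  univ_sets := ⟨1, one_pos, by simpa using not_PS_empty⟩
  sets_of_superset := by
    rintro A B ⟨m, hm, h⟩ hAB
    exact ⟨m, hm, fun h' => h (h'.mono (Set.sdiff_subset_sdiff_right hAB))⟩
  inter_sets := by
    rintro A B ⟨m, hm, h⟩ ⟨k, hk, h'⟩
    refine ⟨m * k, Nat.mul_pos hm hk, fun h'' => ?_⟩
    have h3 : PS (({n | m ∣ n} \ A) ∪ ({n | k ∣ n} \ B)) := by
      refine h''.mono ?_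
      rintro n ⟨hn, hn'⟩
      by_cases hA : n ∈ A
      · exact Or.inr ⟨Dvd.dvd.trans (Dvd.intro_left _ rfl) hn, fun hB => hn' ⟨hA, hB⟩⟩
      · exact Or.inl ⟨Dvd.dvd.trans (Dvd.intro _ rfl) hn, hA⟩
    rcases h3.union with h4 | h4
    · exact h h4
    · exact h' h4

instance : psFilter.NeBot := by
  refine ⟨fun h => ?_⟩
  have h1 : (∅ : Set ℕ) ∈ psFilter := by rw [h]; trivial
  obtain ⟨m, hm, h2⟩ := h1
  apply h2
  simpa using PS_multiples m hm

theorem mem_psFilter_of_compl {A : Set ℕ} (h : ¬ PS Aᶜ) : A ∈ psFilter := by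
  refine ⟨1, one_pos, fun h' => h (h'.mono ?_)⟩
  rintro n ⟨_, hn⟩
  exact hn

theorem multiples_mem (m : ℕ) (hm : 0 < m) : {n | m ∣ n} ∈ psFilter :=
  ⟨m, hm, by simpa using not_PS_empty⟩

theorem exists_idem : ∃ p : Ultrafilter ℕ, p + p = p ∧ (p : Filter ℕ) ≤ psFilter := by
  have h := exists_idempotent_in_compact_add_subsemigroup (M := Ultrafilter ℕ)
    Ultrafilter.continuous_add_left {U : Ultrafilter ℕ | (U : Filter ℕ) ≤ psFilter} ?_ ?_ ?_
  · obtain ⟨p, hp, hid⟩ := h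
    exact ⟨p, hid, hp⟩
  · exact ⟨Ultrafilter.of psFilter, Ultrafilter.of_le psFilter⟩
  · have h1 : {U : Ultrafilter ℕ | (U : Filter ℕ) ≤ psFilter}
        = ⋂ A ∈ psFilter, {U : Ultrafilter ℕ | A ∈ U} := by
      ext U
      simp only [Set.mem_iInter, Set.mem_ofPred_eq]
      exact Iff.rfl
    rw [h1]
    exact (isClosed_biInter fun A _ => ultrafilter_isClosed_basic A).isCompact
  · intro U hU V hV A hA
    obtain ⟨m, hm, h2⟩ := hA
    have h3 : ∀ᶠ x in (U : Filter ℕ), ∀ᶠ y in (V : Filter ℕ), x + y ∈ A := by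
      have h4 : ∀ᶠ x in (U : Filter ℕ), m ∣ x := hU (multiples_mem m hm)
      filter_upwards [h4] with x hx
      apply hV
      refine ⟨m, hm, fun h5 => h2 ?_⟩
      apply PS_of_shift x
      refine h5.mono ?_
      rintro y ⟨hy, hy'⟩
      exact ⟨Dvd.dvd.add hx hy, hy'⟩
    exact (Ultrafilter.eventually_add U V (fun n => n ∈ A)).mpr h3

theorem PS_of_mem {p : Ultrafilter ℕ} (hp : (p : Filter ℕ) ≤ psFilter) {A : Set ℕ} (hA : A ∈ p) :
    PS A := by
  by_contra h
  have h1 : Aᶜ ∈ p := hp (mem_psFilter_of_compl (by simpa using h))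
  exact (Ultrafilter.compl_notMem_iff.mpr hA) h1

theorem ev_dvd {p : Ultrafilter ℕ} (hp : (p : Filter ℕ) ≤ psFilter) (m : ℕ) (hm : 0 < m) :
    ∀ᶠ s in (p : Filter ℕ), m ∣ s := hp (multiples_mem m hm)

theorem ev_large {p : Ultrafilter ℕ} (hp : (p : Filter ℕ) ≤ psFilter) (N : ℕ) :
    ∀ᶠ s in (p : Filter ℕ), N ≤ s := by
  apply hp
  apply mem_psFilter_of_compl
  intro h
  obtain ⟨a, ha, haN⟩ := h.unbounded N
  exact ha haN

theorem line_wsum {F : Finset ℕ} {ι : Type} [Fintype ι] (l : Combinatorics.Line F ι)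
    (w : ι → ℕ) :
    ∃ (α : Finset ι) (e : ℕ), α.Nonempty ∧
      ∀ x : F, ∑ i, ((l x i : F) : ℕ) * w i = e + x * ∑ i ∈ α, w i := by
  classical
  refine ⟨Finset.univ.filter (fun i => l.idxFun i = none),
    ∑ i ∈ Finset.univ.filter (fun i => ¬ l.idxFun i = none),
      ((l.idxFun i).elim 0 (fun b => (b : ℕ))) * w i, ?_, ?_⟩
  · obtain ⟨i, hi⟩ := l.proper
    exact ⟨i, by simp [hi]⟩
  · intro x
    rw [← Finset.sum_filter_add_sum_filter_not Finset.univ (fun i => l.idxFun i = none)]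
    rw [add_comm]
    congr 1
    · apply Finset.sum_congr rfl
      intro i hi
      rw [Finset.mem_filter] at hi
      obtain ⟨b, hb⟩ := Option.ne_none_iff_exists'.mp hi.2
      rw [Combinatorics.Line.apply_some hb, hb]
      rfl
    · rw [Finset.mul_sum]
      apply Finset.sum_congr rfl
      intro i hi
      rw [Finset.mem_filter] at hi
      rw [Combinatorics.Line.apply_none l _ _ hi.2]

/-- the recurrence property of piecewise syndetic sets along an idempotent ultrafilter. -/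
theorem ret {p : Ultrafilter ℕ} (hid : p + p = p) (hp : (p : Filter ℕ) ≤ psFilter)
    {B : Set ℕ} (h : PS B) (F : Finset ℕ) (D : ℕ) (hD : 0 < D) :
    ∀ᶠ s in (p : Filter ℕ), PS {z | z ∈ B ∧ ∀ a ∈ F, z + a * (s / D) ∈ B} := by
  classical
  by_contra hcon
  have hcon' : ∀ᶠ s in (p : Filter ℕ), ¬ PS {z | z ∈ B ∧ ∀ a ∈ F, z + a * (s / D) ∈ B} :=
    Ultrafilter.eventually_not.mpr hcon
  have hT : {s | D ∣ s ∧ ¬ PS {z | z ∈ B ∧ ∀ a ∈ F, z + a * (s / D) ∈ B}} ∈ p := by
    filter_upwards [hcon', ev_dvd hp D hD] with s h1 h2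
    exact ⟨h2, h1⟩
  obtain ⟨x, hx⟩ := Hindman.exists_FS_of_large p hid _ hT
  obtain ⟨t, ht⟩ := h
  set F' := insert 0 F with hF'
  obtain ⟨ι, hι, hHJ⟩ := Combinatorics.Line.exists_mono_in_high_dimension F' (Fin (t + 1))
  set f : ι → ℕ := fun i => ((Fintype.equivFin ι i : Fin _) : ℕ) with hf
  have hfinj : Function.Injective f := by
    intro i j hij
    exact (Fintype.equivFin ι).injective (Fin.ext hij)
  set w : ι → ℕ := fun i => x.get (f i) / D with hw
  have hdvd : ∀ i, D ∣ x.get (f i) := fun i => (hx (Hindman.FS.singleton x (f i))).1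
  have hsumα : ∀ α : Finset ι, α.Nonempty → (∑ i ∈ α, x.get (f i)) ∈ Hindman.FS x := by
    intro α hα
    have h1 := Hindman.FS.finsetSum x (α.image f) (hα.image f)
    rwa [Finset.sum_image (fun i _ j _ hij => hfinj hij)] at h1
  have hwsum : ∀ α : Finset ι, (∑ i ∈ α, x.get (f i)) / D = ∑ i ∈ α, w i := by
    intro α
    have h1 : ∑ i ∈ α, x.get (f i) = D * ∑ i ∈ α, w i := by
      rw [Finset.mul_sum]
      apply Finset.sum_congr rfl
      intro i _
      rw [hw]
      exact (Nat.mul_div_cancel' (hdvd i)).symm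
    rw [h1, Nat.mul_div_cancel_left _ hD]
  set M := ∑ i, (F'.sup id) * w i with hM
  have hsum : ∀ v : ι → F', ∑ i, ((v i : F') : ℕ) * w i ≤ M := by
    intro v
    apply Finset.sum_le_sum
    intro i _
    exact Nat.mul_le_mul_right _ (Finset.le_sup (f := id) (v i).2)
  have key : PS (⋃ α ∈ (Finset.univ : Finset (Finset ι)).filter (fun α => α.Nonempty),
      {z | z ∈ B ∧ ∀ a ∈ F, z + a * (∑ i ∈ α, w i) ∈ B}) := by
    refine ⟨M + t, fun L => ?_⟩
    obtain ⟨n, hn⟩ := ht (L + M)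
    refine ⟨n, fun m h1 h2 => ?_⟩
    have hcol : ∀ v : ι → F', ∃ s : Fin (t + 1), m + (∑ i, ((v i : F') : ℕ) * w i) + s ∈ B := by
      intro v
      have h3 := hsum v
      obtain ⟨s, hs, hmem⟩ := hn (m + (∑ i, ((v i : F') : ℕ) * w i)) (by omega) (by omega)
      exact ⟨⟨s, by omega⟩, hmem⟩
    choose C hC using hcol
    obtain ⟨l, s, hl⟩ := hHJ C
    obtain ⟨α, e, hα, hde⟩ := line_wsum l w
    have hmem : ∀ y : F', m + (e + y * ∑ i ∈ α, w i) + s ∈ B := by
      intro y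
      have := hC (l y)
      rw [hl y, hde y] at this
      exact this
    have h0 := hmem ⟨0, Finset.mem_insert_self _ _⟩
    have h0' := hsum (fun i => l ⟨0, Finset.mem_insert_self _ _⟩ i)
    rw [hde] at h0'
    simp only [zero_mul, add_zero] at h0 h0'
    refine ⟨e + s, by have := s.2; omega, ?_⟩
    simp only [Set.mem_iUnion, Finset.mem_filter, Finset.mem_univ, true_and, Set.mem_ofPred_eq]
    refine ⟨α, hα, by rw [← add_assoc]; exact h0, fun a ha => ?_⟩
    have h4 := hmem ⟨a, Finset.mem_insert_of_mem ha⟩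
    simp only at h4
    have h5 : m + (e + (s : ℕ)) + a * (∑ i ∈ α, w i) = m + (e + a * ∑ i ∈ α, w i) + s := by ring
    rw [h5]
    exact h4
  obtain ⟨α, hα, hps⟩ := PS.biUnion _ _ key
  have h1 := hx (hsumα α (by simpa using hα))
  rw [Set.mem_ofPred_eq, hwsum] at h1
  exact h1.2 hps

/-! ### limits along an ultrafilter -/

theorem ex_lim (p : Ultrafilter ℕ) {κ : Type} [Finite κ] (f : ℕ → κ) :
    ∃ g, ∀ᶠ s in (p : Filter ℕ), f s = g := by
  obtain ⟨g, hg⟩ := Ultrafilter.eq_pure_of_finite (p.map f)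
  refine ⟨g, ?_⟩
  have h1 : ({g} : Set κ) ∈ p.map f := by rw [hg]; exact Set.mem_singleton _
  exact h1

noncomputable def lim (p : Ultrafilter ℕ) {κ : Type} [Finite κ] (f : ℕ → κ) : κ :=
  (ex_lim p f).choose

theorem lim_spec (p : Ultrafilter ℕ) {κ : Type} [Finite κ] (f : ℕ → κ) :
    ∀ᶠ s in (p : Filter ℕ), f s = lim p f := (ex_lim p f).choose_spec

theorem lim_eq (p : Ultrafilter ℕ) {κ : Type} [Finite κ] {f : ℕ → κ} {g : κ}
    (h : ∀ᶠ s in (p : Filter ℕ), f s = g) : lim p f = g := by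
  obtain ⟨s, h1, h2⟩ := ((lim_spec p f).and h).exists
  rw [← h1, h2]

theorem idem_ev {p : Ultrafilter ℕ} (hid : p + p = p) {Q : ℕ → Prop}
    (h : ∀ᶠ s in (p : Filter ℕ), Q s) :
    ∀ᶠ s in (p : Filter ℕ), ∀ᶠ s' in (p : Filter ℕ), Q (s + s') := by
  rw [← Ultrafilter.eventually_add, hid]
  exact h

end Pool.Agent.Helper30.TC
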