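import Mathlib
import Pool.Agent.Helper30.TC.Base

/-!
The pattern `x, y, x+y, x(y+1)` in colourings with at most two colour classes that are
piecewise syndetic inside the multiples of some `m`.
-/

namespace Pool.Agent.Helper30.TC

open Filter Pool.Agent.Helper86.MS

attribute [local instance] Ultrafilter.add Ultrafilter.addSemigroup

variable {κ : Type} [Fintype κ]

/-- the multiples of `m` of colour `b` -/
def BB (c : ℕ → κ) (m : ℕ) (b : κ) : Set ℕ := {z | m ∣ z ∧ c z = b}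

/-- the colours that are piecewise syndetic inside the multiples of `m` -/
def Per (c : ℕ → κ) (m : ℕ) : Set κ := {b | PS (BB c m b)}

def pregood (c : ℕ → κ) (m : ℕ) (y : ℕ) : Prop :=
  m ∣ y ∧ ∀ b ∈ Per c m, PS {x | x ∈ BB c m b ∧ x + y ∈ BB c m b}

/-- no solution of the pattern, of a colour in `Per`, among the multiples of `m` with
`N ≤ y` and `h y ≤ x`. -/
def NoSol (c : ℕ → κ) (m N : ℕ) (h : ℕ → ℕ) : Prop :=
  ∀ x y, h y ≤ x → N ≤ y → m ∣ x → m ∣ y → c x ∈ Per c m → c y = c x → c (x + y) = c x →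
    c (x * (y + 1)) = c x → False

def AtMostTwo (P : Set κ) : Prop := ∀ b ∈ P, ∀ b' ∈ P, ∀ b'' ∈ P, b ≠ b' → b ≠ b'' → b' = b''

theorem split (c : ℕ → κ) (m : ℕ) {E : Set ℕ} (hE : PS E) (hdiv : ∀ z ∈ E, m ∣ z) :
    ∃ b ∈ Per c m, PS {z | z ∈ E ∧ c z = b} := by
  classical
  have h1 : PS (⋃ b ∈ (Finset.univ : Finset κ), {z | z ∈ E ∧ c z = b}) := by
    refine hE.mono ?_
    intro z hz
    simp [hz]
  obtain ⟨b, _, hb⟩ := PS.biUnion _ _ h1
  refine ⟨b, hb.mono ?_, hb⟩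
  rintro z ⟨h2, h3⟩
  exact ⟨hdiv z h2, h3⟩

theorem first {c : ℕ → κ} {m N : ℕ} {h : ℕ → ℕ} (hns : NoSol c m N h) {y : ℕ} (hy : pregood c m y)
    (hyN : N ≤ y) (hcy : c y ∈ Per c m) :
    ∃ b ∈ Per c m, b ≠ c y ∧
      PS {z | (∃ x, x ∈ BB c m (c y) ∧ x + y ∈ BB c m (c y) ∧ z = (1 + y) * x) ∧ c z = b} := by
  have h1 := (hy.2 _ hcy).dilate (1 + y) (by omega)
  obtain ⟨b, hb, h2⟩ := split c m h1 (by
    rintro z ⟨a, ha, rfl⟩
    exact Dvd.dvd.mul_left ha.1.1 _)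
  refine ⟨b, hb, ?_, ?_⟩
  · intro hbc
    obtain ⟨z, ⟨⟨a, ha, hz⟩, hz2⟩, hzN⟩ := h2.unbounded ((1 + y) * h y)
    have haN : h y ≤ a := by
      rw [hz] at hzN
      exact Nat.le_of_mul_le_mul_left hzN (by omega)
    refine hns a y haN hyN ha.1.1 hy.1 ?_ ?_ ?_ ?_
    · rw [ha.1.2]; exact hcy
    · rw [ha.1.2]
    · rw [ha.2.2, ha.1.2]
    · rw [show a * (y + 1) = z by rw [hz]; ring, hz2, hbc, ha.1.2]
  · refine h2.mono ?_
    rintro z ⟨⟨a, ha, hz⟩, hz2⟩
    exact ⟨⟨a, ha.1, ha.2, hz⟩, hz2⟩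

theorem div_large {n d N s : ℕ} (hn : 0 < n) (hd : 0 < d) (h : d * N ≤ s) : N ≤ n * (s / d) := by
  have h1 : N ≤ s / d := (Nat.le_div_iff_mul_le hd).mpr (by rw [mul_comm]; exact h)
  calc N ≤ s / d := h1
    _ ≤ n * (s / d) := Nat.le_mul_of_pos_left _ hn

theorem div_dvd {n d m s : ℕ} (hd : 0 < d) (h : d * m ∣ s) : m ∣ n * (s / d) := by
  obtain ⟨k, rfl⟩ := h
  rw [mul_assoc, Nat.mul_div_cancel_left _ hd]
  exact Dvd.dvd.mul_left (Dvd.intro _ rfl) _

section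

variable {c : ℕ → κ} {m N : ℕ} {h : ℕ → ℕ} {p : Ultrafilter ℕ}

theorem step (hid : p + p = p) (hp : (p : Filter ℕ) ≤ psFilter) (hm : 0 < m)
    (htwo : AtMostTwo (Per c m)) (hns : NoSol c m N h) {y : ℕ}
    (hy : pregood c m y) (hyN : N ≤ y) (hcy : c y ∈ Per c m) {n d : ℕ} (hn : 0 < n) (hd : 0 < d)
    {g : κ} (hg : g ∈ Per c m) (hgne : c y ≠ g)
    (hlim : ∀ᶠ s in (p : Filter ℕ), c (n * (s / d)) = g) :
    ∀ᶠ s in (p : Filter ℕ), c (y + (1 + y) * (n * (s / d))) ≠ c y := by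
  obtain ⟨b, hbP, hbne, hB⟩ := first hns hy hyN hcy
  obtain rfl : b = g := htwo _ hcy _ hbP _ hg (Ne.symm hbne) hgne
  have h1 := ret hid hp hB {n, (1 + y) ^ 2 * n} d hd
  filter_upwards [h1, hlim, ev_large hp (d * N), ev_dvd hp (d * m) (Nat.mul_pos hd hm)]
    with s hs1 hs2 hs3 hs4 hcon
  have hNy' : N ≤ n * (s / d) := div_large hn hd hs3
  have hmy' : m ∣ n * (s / d) := div_dvd hd hs4
  have hD := hs1.dilate (1 + n * (s / d)) (by omega)
  obtain ⟨b2, hb2P, hb2⟩ := split c m hD (by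
    rintro z ⟨a, ha, rfl⟩
    obtain ⟨⟨x, hx, _, hax⟩, _⟩ := ha.1
    rw [hax]
    exact Dvd.dvd.mul_left (Dvd.dvd.mul_left hx.1 _) _)
  obtain ⟨z, ⟨⟨a, ha, hz⟩, hz2⟩, hzN⟩ :=
    hb2.unbounded ((1 + n * (s / d)) * ((1 + y) *
      (h (n * (s / d)) + h (y + (1 + y) * (n * (s / d))))))
  have haN : (1 + y) * (h (n * (s / d)) + h (y + (1 + y) * (n * (s / d)))) ≤ a := by
    rw [hz] at hzN
    exact Nat.le_of_mul_le_mul_left hzN (by omega)
  obtain ⟨⟨⟨x, hx, hxy, hax⟩, hac⟩, haF⟩ := ha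
  have hxN : h (n * (s / d)) + h (y + (1 + y) * (n * (s / d))) ≤ x := by
    rw [hax] at haN
    exact Nat.le_of_mul_le_mul_left haN (by omega)
  have ham : m ∣ a := by rw [hax]; exact Dvd.dvd.mul_left hx.1 _
  have haF1 := haF n (by simp)
  have haF2 := haF ((1 + y) ^ 2 * n) (by simp)
  by_cases hb2b : b2 = b
  · -- a solution with `a` and `n * (s / d)`
    have haN' : h (n * (s / d)) ≤ a :=
      le_trans (le_trans (Nat.le_add_right _ _) (Nat.le_mul_of_pos_left _ (by omega))) haN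
    refine hns a (n * (s / d)) haN' hNy' ham hmy' ?_ ?_ ?_ ?_
    · rw [hac]; exact hg
    · rw [hs2, hac]
    · rw [haF1.2, hac]
    · rw [show a * (n * (s / d) + 1) = z by rw [hz]; ring, hz2, hb2b, hac]
  · have hb2y : b2 = c y := (htwo _ hg _ hcy _ hb2P (Ne.symm hgne) (Ne.symm hb2b)).symm
    -- a solution with `x` and `y + (1 + y) * (n * (s / d))`
    refine hns x (y + (1 + y) * (n * (s / d))) (by omega) (by omega) hx.1 ?_ ?_ ?_ ?_ ?_
    · exact (Nat.dvd_add_right hy.1).mpr (Dvd.dvd.mul_left hmy' _)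
    · rw [hx.2]; exact hcy
    · rw [hcon, hx.2]
    · obtain ⟨⟨x', hx', hx'y, hx'a⟩, _⟩ := haF2
      have h2 : x' = x + (1 + y) * (n * (s / d)) := by
        have h3 : (1 + y) * x' = (1 + y) * (x + (1 + y) * (n * (s / d))) := by
          rw [← hx'a, hax]; ring
        exact Nat.eq_of_mul_eq_mul_left (by omega) h3
      rw [show x + (y + (1 + y) * (n * (s / d))) = x' + y by rw [h2]; ring, hx'y.2, hx.2]
    · rw [show x * (y + (1 + y) * (n * (s / d)) + 1) = z by rw [hz, hax]; ring, hz2, hb2y, hx.2]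

theorem type_mem (hp : (p : Filter ℕ) ≤ psFilter) (hm : 0 < m) {w n d : ℕ} (hw : m ∣ w)
    (hn : 0 < n) (hd : 0 < d) {g : κ}
    (hg : ∀ᶠ s in (p : Filter ℕ), c (w + n * (s / d)) = g) : g ∈ Per c m := by
  have h1 : {s | d * m ∣ s ∧ c (w + n * (s / d)) = g} ∈ p := by
    filter_upwards [hg, ev_dvd hp (d * m) (Nat.mul_pos hd hm)] with s h2 h3
    exact ⟨h3, h2⟩
  have h2 := PS_divide d hd (PS_of_mem hp h1)
    (fun a ha => Dvd.dvd.trans (Dvd.intro _ rfl) ha.1)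
  have h3 := h2.dilate n hn
  apply PS_of_shift w
  refine h3.mono ?_
  rintro z ⟨a, ha, rfl⟩
  obtain ⟨ha1, ha2⟩ := ha
  rw [Nat.mul_div_cancel_left _ hd] at ha2
  have h4 : m ∣ a := Nat.dvd_of_mul_dvd_mul_left hd ha1
  exact ⟨(Nat.dvd_add_right hw).mpr (Dvd.dvd.mul_left h4 _), ha2⟩

theorem pregood_zero : pregood c m 0 := by
  refine ⟨dvd_zero _, fun b hb => ?_⟩
  have h1 : PS (BB c m b) := hb
  refine h1.mono ?_
  intro z hz
  exact ⟨hz, by simpa using hz⟩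

theorem pregood_add (hid : p + p = p) (hp : (p : Filter ℕ) ≤ psFilter) (hm : 0 < m)
    {w n d : ℕ} (hw : pregood c m w) (hd : 0 < d) :
    ∀ᶠ s in (p : Filter ℕ), pregood c m (w + n * (s / d)) := by
  classical
  have h1 : ∀ᶠ s in (p : Filter ℕ), ∀ b : κ, b ∈ Per c m →
      PS {x | x ∈ BB c m b ∧ x + (w + n * (s / d)) ∈ BB c m b} := by
    rw [Filter.eventually_all]
    intro b
    by_cases hb : b ∈ Per c m
    · filter_upwards [ret hid hp (hw.2 b hb) {n} d hd] with s hs _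
      refine hs.mono ?_
      rintro z ⟨hz1, hz2⟩
      have h2 := (hz2 n (by simp)).2
      refine ⟨hz1.1, ?_⟩
      rw [show z + (w + n * (s / d)) = z + n * (s / d) + w by ring]
      exact h2
    · exact Eventually.of_forall fun s h => absurd h hb
  filter_upwards [h1, ev_dvd hp (d * m) (Nat.mul_pos hd hm)] with s h2 h3
  exact ⟨(Nat.dvd_add_right hw.1).mpr (div_dvd hd h3), h2⟩

/-- limit colour of `w + (n / d) s` -/
noncomputable def H (c : ℕ → κ) (p : Ultrafilter ℕ) (w n d : ℕ) : κ :=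
  lim p (fun s => c (w + n * (s / d)))

theorem H_spec (w n d : ℕ) : ∀ᶠ s in (p : Filter ℕ), c (w + n * (s / d)) = H c p w n d :=
  lim_spec p _

theorem H_mem (hp : (p : Filter ℕ) ≤ psFilter) (hm : 0 < m) {w n d : ℕ} (hw : m ∣ w)
    (hn : 0 < n) (hd : 0 < d) : H c p w n d ∈ Per c m :=
  type_mem hp hm hw hn hd (H_spec w n d)

theorem H_scale (hp : (p : Filter ℕ) ≤ psFilter) (w n d k : ℕ) (hd : 0 < d) (hk : 0 < k) :
    H c p w (k * n) (k * d) = H c p w n d := by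
  apply lim_eq
  filter_upwards [H_spec (c := c) (p := p) w n d, ev_dvd hp (k * d) (Nat.mul_pos hk hd)]
    with s h1 h2
  obtain ⟨j, rfl⟩ := h2
  rw [← h1, Nat.mul_div_cancel_left _ (Nat.mul_pos hk hd),
    show k * d * j = d * (k * j) by ring, Nat.mul_div_cancel_left _ hd]
  congr 1
  ring

theorem H_idem (hid : p + p = p) (hp : (p : Filter ℕ) ≤ psFilter) (w n d : ℕ) (hd : 0 < d) :
    ∀ᶠ s in (p : Filter ℕ), H c p (w + n * (s / d)) n d = H c p w n d := by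
  filter_upwards [idem_ev hid (H_spec (c := c) (p := p) w n d), ev_dvd hp d hd] with s h1 h2
  apply lim_eq
  filter_upwards [h1] with s' h3
  rw [← h3, Nat.add_div_of_dvd_right h2]
  congr 1
  ring

theorem A0 (hid : p + p = p) (hp : (p : Filter ℕ) ≤ psFilter) (hm : 0 < m)
    (htwo : AtMostTwo (Per c m)) (hns : NoSol c m N h) {y : ℕ}
    (hy : pregood c m y) (hyN : N ≤ y) (hcy : c y ∈ Per c m) {n d : ℕ} (hn : 0 < n) (hd : 0 < d)
    (hH : H c p y n d = c y) : H c p 0 n (d * (1 + y)) = c y := by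
  by_contra hne
  have hd' : 0 < d * (1 + y) := Nat.mul_pos hd (by omega)
  have h1 : H c p 0 n (d * (1 + y)) ∈ Per c m := H_mem hp hm (dvd_zero _) hn hd'
  have h2 := step hid hp hm htwo hns hy hyN hcy hn hd' h1 (Ne.symm hne) (by
    have := H_spec (c := c) (p := p) 0 n (d * (1 + y))
    simpa only [zero_add] using this)
  obtain ⟨s, ⟨h3, h4⟩, h5⟩ := ((h2.and (H_spec (c := c) (p := p) y n d)).and
    (ev_dvd hp _ hd')).exists
  apply h3
  rw [← hH, ← h4]
  obtain ⟨k, rfl⟩ := h5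
  rw [Nat.mul_div_cancel_left _ hd', show d * (1 + y) * k = d * ((1 + y) * k) by ring,
    Nat.mul_div_cancel_left _ hd]
  congr 1
  ring

theorem A2 (hid : p + p = p) (hp : (p : Filter ℕ) ≤ psFilter) (hm : 0 < m)
    (htwo : AtMostTwo (Per c m)) (hns : NoSol c m N h) {w n d : ℕ} (hw : pregood c m w)
    (hn : 0 < n) (hd : 0 < d) :
    ∀ᶠ s in (p : Filter ℕ), H c p 0 n (d * (1 + (w + n * (s / d)))) = H c p w n d := by
  filter_upwards [pregood_add hid hp hm (n := n) hw hd, H_spec (c := c) (p := p) w n d,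
    H_idem (c := c) hid hp w n d hd, ev_large hp (d * N)] with s h1 h2 h3 h4
  have h5 : N ≤ w + n * (s / d) := le_trans (div_large hn hd h4) (by omega)
  have h6 : c (w + n * (s / d)) ∈ Per c m := by
    rw [h2]; exact H_mem hp hm hw.1 hn hd
  rw [A0 hid hp hm htwo hns h1 h5 h6 hn hd (by rw [h3, h2]), h2]

/-- the key relation: the colour of `w + a s` is the colour of `(a / (1 + w)) s`. -/
theorem A (hid : p + p = p) (hp : (p : Filter ℕ) ≤ psFilter) (hm : 0 < m)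
    (htwo : AtMostTwo (Per c m)) (hns : NoSol c m N h) {w n d : ℕ} (hw : pregood c m w)
    (hn : 0 < n) (hd : 0 < d) :
    H c p w n d = H c p 0 n (d * (1 + w)) := by
  have hd' : 0 < d * (1 + w) := Nat.mul_pos hd (by omega)
  have h1 := A2 hid hp hm htwo hns hw hn hd
  have h2 := A2 hid hp hm htwo hns (pregood_zero (c := c) (m := m)) hn hd'
  obtain ⟨s, ⟨h3, h4⟩, h5⟩ := ((h1.and h2).and (ev_dvd hp _ hd')).exists
  rw [← h3, ← h4]
  obtain ⟨k, rfl⟩ := h5
  rw [Nat.mul_div_cancel_left _ hd', show d * (1 + w) * k = d * ((1 + w) * k) by ring,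
    Nat.mul_div_cancel_left _ hd]
  congr 1
  ring

theorem A' (hid : p + p = p) (hp : (p : Filter ℕ) ≤ psFilter) (hm : 0 < m)
    (htwo : AtMostTwo (Per c m)) (hns : NoSol c m N h) {w u : ℕ} (hw : pregood c m w)
    (hu : 0 < u) : H c p w ((1 + w) * u) 1 = H c p 0 u 1 := by
  rw [A hid hp hm htwo hns hw (Nat.mul_pos (by omega) hu) one_pos, one_mul,
    show (1 + w) = (1 + w) * 1 by ring, mul_assoc, one_mul]
  exact H_scale hp 0 u 1 (1 + w) one_pos (by omega)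

theorem Bstep (hid : p + p = p) (hp : (p : Filter ℕ) ≤ psFilter) (hm : 0 < m)
    (htwo : AtMostTwo (Per c m)) (hns : NoSol c m N h) {w u : ℕ} (hw : pregood c m w)
    (hu : 0 < u) : ∀ᶠ s in (p : Filter ℕ), pregood c m (w + (1 + w) * u * s) ∧
      N ≤ w + (1 + w) * u * s ∧ c (w + (1 + w) * u * s) = H c p 0 u 1 := by
  have hpos : 0 < (1 + w) * u := Nat.mul_pos (by omega) hu
  filter_upwards [pregood_add hid hp hm (n := (1 + w) * u) hw one_pos,
    H_spec (c := c) (p := p) w ((1 + w) * u) 1, ev_large hp (1 * N)] with s h1 h2 h3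
  have h4 := div_large hpos one_pos h3
  rw [A' hid hp hm htwo hns hw hu] at h2
  rw [Nat.div_one] at h1 h2 h4
  exact ⟨h1, by omega, h2⟩

/-- finite systems of multipliers `1 + w i` all of whose products are `1 +` a number of the
prescribed colour. -/
theorem system (hid : p + p = p) (hp : (p : Filter ℕ) ≤ psFilter) (hm : 0 < m)
    (htwo : AtMostTwo (Per c m)) (hns : NoSol c m N h) {u : ℕ} (hu : 0 < u)
    {ι : Type} [DecidableEq ι] (T : Finset ι) :
    ∃ w : ι → ℕ, ∀ S ⊆ T, pregood c m (∏ i ∈ S, (1 + w i) - 1) ∧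
      (S.Nonempty → N ≤ ∏ i ∈ S, (1 + w i) - 1 ∧ c (∏ i ∈ S, (1 + w i) - 1) = H c p 0 u 1) := by
  classical
  induction T using Finset.induction_on with
  | empty =>
    refine ⟨fun _ => 0, fun S hS => ?_⟩
    have h1 : S = ∅ := Finset.subset_empty.mp hS
    subst h1
    refine ⟨by simpa using pregood_zero, fun h => absurd h (by simp)⟩
  | insert a T ha ih =>
    obtain ⟨w, hw⟩ := ih
    have h1 : ∀ᶠ s in (p : Filter ℕ), ∀ S ∈ T.powerset,
        pregood c m ((∏ i ∈ S, (1 + w i) - 1) + (1 + (∏ i ∈ S, (1 + w i) - 1)) * u * s) ∧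
        N ≤ (∏ i ∈ S, (1 + w i) - 1) + (1 + (∏ i ∈ S, (1 + w i) - 1)) * u * s ∧
        c ((∏ i ∈ S, (1 + w i) - 1) + (1 + (∏ i ∈ S, (1 + w i) - 1)) * u * s) = H c p 0 u 1 := by
      rw [Filter.eventually_all_finset]
      intro S hS
      exact Bstep hid hp hm htwo hns (hw S (Finset.mem_powerset.mp hS)).1 hu
    obtain ⟨s, hs⟩ := h1.exists
    have hprod : ∀ S : Finset ι, 0 < ∏ i ∈ S, (1 + w i) := fun S =>
      Finset.prod_pos fun i _ => by omega
    refine ⟨Function.update w a (u * s), fun S hS => ?_⟩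
    by_cases haS : a ∈ S
    · have h2 : S.erase a ⊆ T := by
        intro i hi
        rw [Finset.mem_erase] at hi
        have := hS hi.2
        rw [Finset.mem_insert] at this
        exact this.resolve_left hi.1
      have h3 : ∏ i ∈ S, (1 + Function.update w a (u * s) i) - 1
          = (∏ i ∈ S.erase a, (1 + w i) - 1)
            + (1 + (∏ i ∈ S.erase a, (1 + w i) - 1)) * u * s := by
        rw [← Finset.mul_prod_erase S _ haS, Function.update_self]
        have h4 : ∏ i ∈ S.erase a, (1 + Function.update w a (u * s) i)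
            = ∏ i ∈ S.erase a, (1 + w i) := by
          apply Finset.prod_congr rfl
          intro i hi
          rw [Function.update_of_ne (Finset.mem_erase.mp hi).1]
        rw [h4]
        have h5 := hprod (S.erase a)
        obtain ⟨k, hk⟩ : ∃ k, ∏ i ∈ S.erase a, (1 + w i) = k + 1 := ⟨_, (Nat.sub_add_cancel h5).symm⟩
        rw [hk, Nat.add_sub_cancel]
        have h6 : (1 + u * s) * (k + 1) = (k + (1 + k) * u * s) + 1 := by ring
        rw [h6, Nat.add_sub_cancel]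
      rw [h3]
      have h7 := hs _ (Finset.mem_powerset.mpr h2)
      exact ⟨h7.1, fun _ => h7.2⟩
    · have h2 : S ⊆ T := by
        intro i hi
        have := hS hi
        rw [Finset.mem_insert] at this
        rcases this with h | h
        · subst h; exact absurd hi haS
        · exact h
      have h3 : ∏ i ∈ S, (1 + Function.update w a (u * s) i) = ∏ i ∈ S, (1 + w i) := by
        apply Finset.prod_congr rfl
        intro i hi
        rw [Function.update_of_ne]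
        rintro rfl
        exact haS hi
      rw [h3]
      exact hw S h2

theorem line_prod {ι : Type} [Fintype ι] (l : Combinatorics.Line (Fin 3) ι) (w : ι → ℕ) :
    ∃ (S : Finset ι) (e : ℕ), S.Nonempty ∧ 0 < e ∧
      ∀ k : Fin 3, ∏ i, (1 + w i) ^ ((l k i : Fin 3) : ℕ) = e * (∏ i ∈ S, (1 + w i)) ^ (k : ℕ) := by
  classical
  refine ⟨Finset.univ.filter (fun i => l.idxFun i = none),
    ∏ i ∈ Finset.univ.filter (fun i => ¬ l.idxFun i = none),
      (1 + w i) ^ ((l.idxFun i).elim 0 (fun b => (b : ℕ))), ?_, ?_, ?_⟩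
  · obtain ⟨i, hi⟩ := l.proper
    exact ⟨i, by simp [hi]⟩
  · exact Finset.prod_pos fun i _ => Nat.pow_pos (by omega)
  · intro k
    rw [← Finset.prod_filter_mul_prod_filter_not Finset.univ (fun i => l.idxFun i = none)]
    rw [mul_comm]
    congr 1
    · apply Finset.prod_congr rfl
      intro i hi
      rw [Finset.mem_filter] at hi
      obtain ⟨b, hb⟩ := Option.ne_none_iff_exists'.mp hi.2
      rw [Combinatorics.Line.apply_some hb, hb]
      rfl
    · rw [← Finset.prod_pow]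
      apply Finset.prod_congr rfl
      intro i hi
      rw [Finset.mem_filter] at hi
      rw [Combinatorics.Line.apply_none l _ _ hi.2]

/-- the direct contradiction from a geometric progression of length three -/
theorem direct (hid : p + p = p) (hp : (p : Filter ℕ) ≤ psFilter) (hm : 0 < m)
    (htwo : AtMostTwo (Per c m)) (hns : NoSol c m N h) {y u : ℕ} (hy : pregood c m y)
    (hyN : N ≤ y) (hu : 0 < u) (h0 : H c p 0 u 1 = c y) (h1 : H c p 0 (u * (1 + y)) 1 = c y)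
    (h2 : H c p 0 (u * (1 + y) ^ 2) 1 = c y) : False := by
  have h3 : H c p y ((1 + y) * u) 1 = c y := by
    rw [A' hid hp hm htwo hns hy hu, h0]
  have hpos : 0 < (1 + y) * u := Nat.mul_pos (by omega) hu
  obtain ⟨s, ⟨⟨⟨⟨h4, h5⟩, h6⟩, h7⟩, h8⟩⟩ := (((((H_spec (c := c) (p := p) y ((1 + y) * u) 1).and
    (H_spec (c := c) (p := p) 0 (u * (1 + y)) 1)).and
    (H_spec (c := c) (p := p) 0 (u * (1 + y) ^ 2) 1)).and (ev_large hp (1 * h y))).and
    (ev_dvd hp (1 * m) (by omega))).exists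
  rw [h3] at h4
  rw [h1] at h5
  rw [h2] at h6
  have h9 := div_large hpos one_pos h7
  have h10 : m ∣ (1 + y) * u * (s / 1) := div_dvd one_pos h8
  rw [Nat.div_one] at h4 h5 h6 h9 h10
  rw [zero_add] at h5 h6
  have h11 : c ((1 + y) * u * s) = c y := by rw [← h5]; congr 1; ring
  have hcy : c y ∈ Per c m := by
    rw [← h0]; exact H_mem hp hm (dvd_zero _) hu one_pos
  refine hns ((1 + y) * u * s) y h9 hyN h10 hy.1 (by rw [h11]; exact hcy) h11.symm ?_ ?_
  · rw [h11, ← h4]; congr 1; ring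
  · rw [h11, ← h6]; congr 1; ring

end

/-- main theorem, ultrafilter-free form -/
theorem main {c : ℕ → κ} {m : ℕ} (hm : 0 < m) (N : ℕ) (b₀ b₁ : κ)
    (hP : ∀ b ∈ Per c m, b = b₀ ∨ b = b₁) :
    ∃ y, N ≤ y ∧ m ∣ y ∧ (c y = b₀ ∨ c y = b₁) ∧ ∀ M : ℕ, ∃ x, M ≤ x ∧ m ∣ x ∧
      c x = c y ∧ c (x + y) = c y ∧ c (x * (y + 1)) = c y := by
  classical
  by_contra hcon
  have hex : ∀ y, ∃ M, N ≤ y → m ∣ y → c y ∈ Per c m → ∀ x, M ≤ x → m ∣ x → c x = c y →
      c (x + y) = c y → c (x * (y + 1)) = c y → False := by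
    intro y
    by_contra h1
    apply hcon
    have h2 : N ≤ y ∧ m ∣ y ∧ c y ∈ Per c m := by
      by_contra h3
      exact h1 ⟨0, fun h4 h5 h6 => absurd ⟨h4, h5, h6⟩ h3⟩
    refine ⟨y, h2.1, h2.2.1, hP _ h2.2.2, fun M => ?_⟩
    by_contra h3
    exact h1 ⟨M, fun _ _ _ x h4 h5 h6 h7 h8 => h3 ⟨x, h4, h5, h6, h7, h8⟩⟩
  choose h hh using hex
  have hns : NoSol c m N h := by
    intro x y h1 h2 h3 h4 h5 h6 h7 h8
    exact hh y h2 h4 (by rw [h6]; exact h5) x h1 h3 h6.symm (by rw [h7, h6]) (by rw [h8, h6])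
  have htwo : AtMostTwo (Per c m) := by
    intro b hb b' hb' b'' hb'' h1 h2
    rcases hP b hb with h | h <;> rcases hP b' hb' with h' | h' <;>
      rcases hP b'' hb'' with h'' | h'' <;> simp_all
  obtain ⟨p, hid, hp⟩ := exists_idem
  -- for each colour `b` that is the colour of some `u s`, a multiplier system of that colour
  have hsys : ∀ (b : κ) (ι : Type) (_ : Fintype ι), ∃ w : ι → ℕ,
      (∃ u, 0 < u ∧ H c p 0 u 1 = b) → ∀ S : Finset ι, S.Nonempty →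
        pregood c m (∏ i ∈ S, (1 + w i) - 1) ∧ N ≤ ∏ i ∈ S, (1 + w i) - 1 ∧
        c (∏ i ∈ S, (1 + w i) - 1) = b := by
    intro b ι _
    by_cases hb : ∃ u, 0 < u ∧ H c p 0 u 1 = b
    · obtain ⟨u, hu, hub⟩ := hb
      obtain ⟨w, hw⟩ := system hid hp hm htwo hns hu (Finset.univ : Finset ι)
      refine ⟨w, fun _ S hS => ?_⟩
      have h1 := hw S (Finset.subset_univ _)
      rw [hub] at h1
      exact ⟨h1.1, (h1.2 hS).1, (h1.2 hS).2⟩
    · exact ⟨fun _ => 0, fun h => absurd h hb⟩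
  obtain ⟨ι₁, hι₁, hHJ₁⟩ := Combinatorics.Line.exists_mono_in_high_dimension (Fin 3) κ
  obtain ⟨ι₀, hι₀, hHJ₀⟩ :=
    Combinatorics.Line.exists_mono_in_high_dimension (Fin 3) ((ι₁ → Fin 3) → κ)
  obtain ⟨w₀, hw₀⟩ := hsys b₀ ι₀ hι₀
  obtain ⟨w₁, hw₁⟩ := hsys b₁ ι₁ hι₁
  set f₀ : (ι₀ → Fin 3) → ℕ := fun v => ∏ i, (1 + w₀ i) ^ ((v i : Fin 3) : ℕ) with hf₀
  set f₁ : (ι₁ → Fin 3) → ℕ := fun v => ∏ i, (1 + w₁ i) ^ ((v i : Fin 3) : ℕ) with hf₁
  have hf₀pos : ∀ v, 0 < f₀ v := fun v => Finset.prod_pos fun i _ => Nat.pow_pos (by omega)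
  have hf₁pos : ∀ v, 0 < f₁ v := fun v => Finset.prod_pos fun i _ => Nat.pow_pos (by omega)
  obtain ⟨l₀, φ, hl₀⟩ := hHJ₀ (fun v₀ v₁ => H c p 0 (f₀ v₀ * f₁ v₁) 1)
  obtain ⟨l₁, ε, hl₁⟩ := hHJ₁ φ
  have hbox : ∀ k₀ k₁ : Fin 3, H c p 0 (f₀ (l₀ k₀) * f₁ (l₁ k₁)) 1 = ε := by
    intro k₀ k₁
    rw [← hl₁ k₁, ← hl₀ k₀]
  have hε : ε ∈ Per c m := by
    rw [← hbox 0 0]
    exact H_mem hp hm (dvd_zero _) (Nat.mul_pos (hf₀pos _) (hf₁pos _)) one_pos
  obtain ⟨S₀, e₀, hS₀, he₀, hline₀⟩ := line_prod l₀ w₀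
  obtain ⟨S₁, e₁, hS₁, he₁, hline₁⟩ := line_prod l₁ w₁
  have hne : ∀ (ι : Type) (S : Finset ι) (w : ι → ℕ),
      1 + (∏ i ∈ S, (1 + w i) - 1) = ∏ i ∈ S, (1 + w i) := by
    intro ι S w
    have : 0 < ∏ i ∈ S, (1 + w i) := Finset.prod_pos fun i _ => by omega
    omega
  rcases hP ε hε with hb | hb
  · -- use the direction in `ι₀`
    have hex : ∃ u, 0 < u ∧ H c p 0 u 1 = b₀ :=
      ⟨f₀ (l₀ 0) * f₁ (l₁ 0), Nat.mul_pos (hf₀pos _) (hf₁pos _), by rw [hbox, hb]⟩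
    obtain ⟨h1, h2, h3⟩ := hw₀ hex S₀ hS₀
    have key : ∀ k : Fin 3,
        H c p 0 (e₀ * f₁ (l₁ 0) * (1 + (∏ i ∈ S₀, (1 + w₀ i) - 1)) ^ (k : ℕ)) 1
          = c (∏ i ∈ S₀, (1 + w₀ i) - 1) := by
      intro k
      rw [h3, ← hb, ← hbox k 0]
      congr 1
      rw [hne, hf₀]
      simp only
      rw [hline₀ k]
      ring
    refine direct hid hp hm htwo hns (u := e₀ * f₁ (l₁ 0)) h1 h2
      (Nat.mul_pos he₀ (hf₁pos _)) ?_ ?_ ?_
    · simpa using key 0
    · simpa using key 1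
    · simpa using key 2
  · -- use the direction in `ι₁`
    have hex : ∃ u, 0 < u ∧ H c p 0 u 1 = b₁ :=
      ⟨f₀ (l₀ 0) * f₁ (l₁ 0), Nat.mul_pos (hf₀pos _) (hf₁pos _), by rw [hbox, hb]⟩
    obtain ⟨h1, h2, h3⟩ := hw₁ hex S₁ hS₁
    have key : ∀ k : Fin 3,
        H c p 0 (f₀ (l₀ 0) * e₁ * (1 + (∏ i ∈ S₁, (1 + w₁ i) - 1)) ^ (k : ℕ)) 1
          = c (∏ i ∈ S₁, (1 + w₁ i) - 1) := by
      intro k
      rw [h3, ← hb, ← hbox 0 k]
      congr 1
      rw [hne, hf₁]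
      simp only
      rw [hline₁ k]
      ring
    refine direct hid hp hm htwo hns (u := f₀ (l₀ 0) * e₁) h1 h2
      (Nat.mul_pos (hf₀pos _) he₁) ?_ ?_ ?_
    · simpa using key 0
    · simpa using key 1
    · simpa using key 2

end Pool.Agent.Helper30.TC
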